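import Pool.Agent.R713.QuatExtend

/-!
# MP_64d585_al, Q1: extension of invariant `(HA, φ)`-neutral subspaces
-/

set_option autoImplicit false

namespace Pool.Agent.Results.MP_64d585_al.Extension

open Quaternion MulOpposite Matrix Pool.Agent.R713

/-- `φ` is a nonstandard involution of `ℍ`. -/
structure NonstandardInvolution (φ : ℍ[ℝ] →ₗ[ℝ] ℍ[ℝ]) : Prop where
  mul : ∀ x y, φ (x * y) = φ y * φ x
  invol : ∀ x, φ (φ x) = x
  ne_star : ∃ x, φ x ≠ star x

/-- The right quaternionic subspaces of `ℍ^n`. -/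
abbrev Sub (n : ℕ) : Type := Submodule ℍ[ℝ]ᵐᵒᵖ (Fin n → ℍ[ℝ])

/-- `X_φ`: the transpose of `X` with `φ` applied to every entry. -/
noncomputable def phiT {n : ℕ} (φ : ℍ[ℝ] →ₗ[ℝ] ℍ[ℝ]) (X : Matrix (Fin n) (Fin n) ℍ[ℝ]) :
    Matrix (Fin n) (Fin n) ℍ[ℝ] := Matrix.of fun i j => φ (X j i)

/-- `x_φ G y` -/
noncomputable def pair {n : ℕ} (φ : ℍ[ℝ] →ₗ[ℝ] ℍ[ℝ]) (G : Matrix (Fin n) (Fin n) ℍ[ℝ])
    (x y : Fin n → ℍ[ℝ]) : ℍ[ℝ] := (fun i => φ (x i)) ⬝ᵥ (G *ᵥ y)

/-- `M` is `A`-invariant. -/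
def Invariant {n : ℕ} (A : Matrix (Fin n) (Fin n) ℍ[ℝ]) (M : Sub n) : Prop :=
  ∀ x ∈ M, A *ᵥ x ∈ M

/-- `M` is `(G, φ)`-neutral: `y_φ G x = 0` for all `x, y ∈ M`. -/
def Neutral {n : ℕ} (φ : ℍ[ℝ] →ₗ[ℝ] ℍ[ℝ]) (G : Matrix (Fin n) (Fin n) ℍ[ℝ])
    (M : Sub n) : Prop :=
  ∀ x ∈ M, ∀ y ∈ M, pair φ G y x = 0

/-- `M` is `(G, φ)`-nonnegative: `β⁻¹ x_φ G x` is a nonnegative real number for all `x ∈ M`. -/
def Nonneg {n : ℕ} (φ : ℍ[ℝ] →ₗ[ℝ] ℍ[ℝ]) (β : ℍ[ℝ]) (G : Matrix (Fin n) (Fin n) ℍ[ℝ])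
    (M : Sub n) : Prop :=
  ∀ x ∈ M, ∃ r : ℝ, 0 ≤ r ∧ β⁻¹ * pair φ G x x = (r : ℍ[ℝ])

/-- `M` is `(G, φ)`-nonpositive: `β⁻¹ x_φ G x` is a nonpositive real number for all `x ∈ M`. -/
def Nonpos {n : ℕ} (φ : ℍ[ℝ] →ₗ[ℝ] ℍ[ℝ]) (β : ℍ[ℝ]) (G : Matrix (Fin n) (Fin n) ℍ[ℝ])
    (M : Sub n) : Prop :=
  ∀ x ∈ M, ∃ r : ℝ, r ≤ 0 ∧ β⁻¹ * pair φ G x x = (r : ℍ[ℝ])

/-- `M` has the property `P` and is not properly contained in another subspace with it. -/
def Maximal {n : ℕ} (P : Sub n → Prop) (M : Sub n) : Prop :=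
  P M ∧ ∀ M' : Sub n, M ≤ M' → P M' → M' = M

section involution

variable {φ : ℍ[ℝ] →ₗ[ℝ] ℍ[ℝ]}

theorem phi_one (h : NonstandardInvolution φ) : φ 1 = 1 := by
  have h1 : φ 1 * φ 1 = φ 1 * 1 := by rw [← h.mul, mul_one, mul_one]
  have h0 : φ 1 ≠ 0 := by
    intro h0
    have := h.invol 1
    rw [h0, map_zero] at this
    exact zero_ne_one this
  exact mul_left_cancel₀ h0 h1

theorem phi_coe (h : NonstandardInvolution φ) (r : ℝ) : φ (r : ℍ[ℝ]) = r := by
  have : (r : ℍ[ℝ]) = r • (1 : ℍ[ℝ]) := by ext <;> simp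
  rw [this, map_smul, phi_one h]

theorem sq_eq (x : ℍ[ℝ]) : x * x = ((2 * x.re : ℝ) : ℍ[ℝ]) * x - ((normSq x : ℝ) : ℍ[ℝ]) := by
  have h1 : x * star x = ((normSq x : ℝ) : ℍ[ℝ]) := Quaternion.self_mul_star x
  have h2 : x + star x = ((2 * x.re : ℝ) : ℍ[ℝ]) := Quaternion.self_add_star' x
  have h3 : ((2 * x.re : ℝ) : ℍ[ℝ]) * x = x * x + x * star x := by
    rw [Quaternion.coe_commutes, ← h2, mul_add]
  rw [h3, h1, add_sub_cancel_right]

theorem phi_re (h : NonstandardInvolution φ) (x : ℍ[ℝ]) : (φ x).re = x.re := by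
  by_contra hne
  have e1 := congrArg φ (sq_eq x)
  rw [h.mul, map_sub, h.mul, phi_coe h, phi_coe h, ← Quaternion.coe_commutes] at e1
  have e2 := sq_eq (φ x)
  rw [e1] at e2
  -- `φ x` is real
  have e3 : ((2 * x.re - 2 * (φ x).re : ℝ) : ℍ[ℝ]) * φ x = ((normSq x - normSq (φ x) : ℝ) : ℍ[ℝ]) := by
    rw [Quaternion.coe_sub, Quaternion.coe_sub, sub_mul]
    have e5 := sub_eq_sub_iff_add_eq_add.1 e2
    rw [sub_eq_sub_iff_add_eq_add, e5, add_comm]
  have hc : (2 * x.re - 2 * (φ x).re : ℝ) ≠ 0 := fun h0 => hne (by linarith)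
  have e4 : φ x = (((2 * x.re - 2 * (φ x).re)⁻¹ * (normSq x - normSq (φ x)) : ℝ) : ℍ[ℝ]) := by
    rw [Quaternion.coe_mul, ← e3, ← mul_assoc, ← Quaternion.coe_mul, inv_mul_cancel₀ hc]
    simp
  have e5 := h.invol x
  rw [e4, phi_coe h] at e5
  apply hne
  rw [e4]
  conv_rhs => rw [← e5]

theorem phi_star (h : NonstandardInvolution φ) (x : ℍ[ℝ]) : φ (star x) = star (φ x) := by
  rw [Quaternion.star_eq_two_re_sub x, Quaternion.star_eq_two_re_sub (φ x), map_sub, phi_coe h,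
    phi_re h]

/-- the commutant of `β` -/
theorem commutant {β : ℍ[ℝ]} (hre : β.re = 0) (hn : normSq β = 1) (z : ℍ[ℝ]) (hz : z * β = β * z) :
    ∃ s t : ℝ, z = (s : ℍ[ℝ]) + t • β := by
  refine ⟨z.re, z.imI * β.imI + z.imJ * β.imJ + z.imK * β.imK, ?_⟩
  rw [Quaternion.normSq_def', hre] at hn
  have h1 := congrArg (fun q : ℍ[ℝ] => q.imI) hz
  have h2 := congrArg (fun q : ℍ[ℝ] => q.imJ) hz
  have h3 := congrArg (fun q : ℍ[ℝ] => q.imK) hz
  simp [hre] at h1 h2 h3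
  ext
  · simp [hre]
  · simp
    linear_combination (-z.imI) * hn - (β.imK / 2) * h2 + (β.imJ / 2) * h3
  · simp
    linear_combination (-z.imJ) * hn - (β.imI / 2) * h3 + (β.imK / 2) * h1
  · simp
    linear_combination (-z.imK) * hn - (β.imJ / 2) * h1 + (β.imI / 2) * h2

theorem beta_re (h : NonstandardInvolution φ) {β : ℍ[ℝ]} (hβ : φ β = -β) : β.re = 0 := by
  have h1 := phi_re h β
  rw [hβ] at h1
  simp at h1
  linarith

theorem beta_star (h : NonstandardInvolution φ) {β : ℍ[ℝ]} (hβ : φ β = -β) : star β = -β := by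
  rw [Quaternion.star_eq_two_re_sub, beta_re h hβ]
  simp

theorem beta_sq (h : NonstandardInvolution φ) {β : ℍ[ℝ]} (hβ : φ β = -β) (hn : normSq β = 1) :
    β * β = -1 := by
  have h1 : β * star β = ((normSq β : ℝ) : ℍ[ℝ]) := Quaternion.self_mul_star β
  rw [beta_star h hβ, hn, mul_neg, Quaternion.coe_one] at h1
  rw [← h1, neg_neg]

/-- the formula for a nonstandard involution -/
theorem phi_eq (h : NonstandardInvolution φ) {β : ℍ[ℝ]} (hβ : φ β = -β) (hn : normSq β = 1)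
    (x : ℍ[ℝ]) : φ x = -(β * star x * β) := by
  have hbb := beta_sq h hβ hn
  have hsb := beta_star h hβ
  let ψ : ℍ[ℝ] → ℍ[ℝ] := fun x => star (φ x)
  have ψmul : ∀ x y, ψ (x * y) = ψ x * ψ y := fun x y => by
    simp only [ψ, h.mul, star_mul]
  have ψadd : ∀ x y, ψ (x + y) = ψ x + ψ y := fun x y => by
    simp only [ψ, map_add, star_add]
  have ψneg : ∀ x, ψ (-x) = -ψ x := fun x => by
    simp only [ψ, map_neg, star_neg]
  have ψψ : ∀ x, ψ (ψ x) = x := fun x => by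
    simp only [ψ, phi_star h, star_star, h.invol]
  have ψβ : ψ β = β := by
    simp only [ψ, hβ, star_neg, hsb, neg_neg]
  have ψcoe : ∀ r : ℝ, ψ (r : ℍ[ℝ]) = r := fun r => by
    simp only [ψ, phi_coe h, Quaternion.star_coe]
  -- the commutant of `β` is fixed
  have ψcomm : ∀ z, z * β = β * z → ψ z = z := by
    intro z hz
    obtain ⟨s, t, rfl⟩ := commutant (beta_re h hβ) hn z hz
    have : t • β = (t : ℍ[ℝ]) * β := by ext <;> simp
    rw [this, ψadd, ψmul, ψcoe, ψcoe, ψβ]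
  -- anticommuting part
  have hanti : ∀ x, ψ (x + β * x * β) = -(x + β * x * β) := by
    intro x
    set c := x + β * x * β with hc
    have hcβ : c * β = -(β * c) := by
      rw [hc]
      simp only [add_mul, mul_add, mul_assoc, hbb]
      rw [← mul_assoc β β, hbb]
      simp
    by_contra hne
    have hp : c + ψ c ≠ 0 := fun h0 => hne (eq_neg_of_add_eq_zero_right h0)
    set p := c + ψ c with hpdef
    have hψp : ψ p = p := by rw [hpdef, ψadd, ψψ, add_comm]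
    have hpβ : p * β = -(β * p) := by
      have h1 := congrArg ψ hcβ
      rw [ψmul, ψneg, ψmul, ψβ] at h1
      rw [hpdef, add_mul, mul_add, hcβ, h1, neg_add]
    apply h.ne_star.elim
    intro y hy
    apply hy
    have hall : ψ y = y := by
      have e : y = ((1 / 2 : ℝ) : ℍ[ℝ]) * (y + -(β * y * β)) +
          p * (p⁻¹ * (((1 / 2 : ℝ) : ℍ[ℝ]) * (y + β * y * β))) := by
        rw [← mul_assoc p, mul_inv_cancel₀ hp, one_mul, ← mul_add]
        have : y + -(β * y * β) + (y + β * y * β) = ((2 : ℝ) : ℍ[ℝ]) * y := by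
          have h2 : ((2 : ℝ) : ℍ[ℝ]) * y = y + y := by
            rw [show (2 : ℝ) = 1 + 1 by norm_num, Quaternion.coe_add, Quaternion.coe_one, add_mul,
              one_mul]
          rw [h2]
          abel
        rw [this, ← mul_assoc, ← Quaternion.coe_mul]
        norm_num
      have c1 : (y + -(β * y * β)) * β = β * (y + -(β * y * β)) := by
        simp only [add_mul, mul_add, mul_assoc, hbb, neg_mul, mul_neg]
        rw [← mul_assoc β β, hbb]
        simp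
        abel
      have c2 : (y + β * y * β) * β = -(β * (y + β * y * β)) := by
        simp only [add_mul, mul_add, mul_assoc, hbb]
        rw [← mul_assoc β β, hbb]
        simp
      have c3 : p⁻¹ * β = -(β * p⁻¹) := by
        have h3 : p⁻¹ * (p * β) * p⁻¹ = p⁻¹ * (-(β * p)) * p⁻¹ := by rw [hpβ]
        rw [← mul_assoc, inv_mul_cancel₀ hp, one_mul, mul_neg, neg_mul, mul_assoc, mul_assoc,
          mul_inv_cancel₀ hp, mul_one] at h3
        rw [h3, neg_neg]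
      rw [e, ψadd, ψmul, ψmul p, hψp, ψcoe, ψcomm _ c1, ψcomm (p⁻¹ * _)]
      rw [mul_assoc, mul_assoc, c2, mul_neg, mul_neg, ← mul_assoc (((1 / 2 : ℝ)) : ℍ[ℝ]) β,
        Quaternion.coe_commutes, mul_assoc β, ← mul_assoc p⁻¹ β, c3, neg_mul, neg_neg, mul_assoc]
    have := congrArg star hall
    simp only [ψ, star_star] at this
    exact this
  have hcom : ψ (x + -(β * x * β)) = x + -(β * x * β) := by
    apply ψcomm
    simp only [add_mul, mul_add, mul_assoc, hbb, neg_mul, mul_neg]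
    rw [← mul_assoc β β, hbb]
    simp
    abel
  have h1 := hanti x
  rw [ψadd] at h1 hcom
  rw [ψneg] at hcom
  have h2 : ψ x + ψ x = -(β * x * β) + -(β * x * β) := by
    have e1 : ψ x + ψ x = (ψ x + ψ (β * x * β)) + (ψ x + -ψ (β * x * β)) := by abel
    rw [e1, h1, hcom]
    abel
  have h3 : ψ x = -(β * x * β) := by
    have h4 : (2 : ℝ) • ψ x = (2 : ℝ) • (-(β * x * β)) := by
      rw [two_smul, two_smul, h2]
    exact smul_right_injective ℍ[ℝ] (two_ne_zero (α := ℝ)) h4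
  have h5 := congrArg star h3
  simp only [ψ, star_star, star_neg, star_mul, hsb] at h5
  rw [h5]
  simp [mul_assoc]

end involution

variable {n : ℕ} {φ : ℍ[ℝ] →ₗ[ℝ] ℍ[ℝ]}

/-- the linear map given by a matrix -/
def lin (A : Matrix (Fin n) (Fin n) ℍ[ℝ]) : (Fin n → ℍ[ℝ]) →ₗ[ℍ[ℝ]ᵐᵒᵖ] (Fin n → ℍ[ℝ]) where
  toFun x := A *ᵥ x
  map_add' x y := Matrix.mulVec_add A x y
  map_smul' q x := Matrix.mulVec_smul A q x

instance finiteV : Module.Finite ℍ[ℝ]ᵐᵒᵖ (Fin n → ℍ[ℝ]) := by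
  have : Module.Finite ℍ[ℝ]ᵐᵒᵖ ℍ[ℝ] := by
    refine ⟨⟨{1}, ?_⟩⟩
    rw [Submodule.eq_top_iff']
    intro x
    rw [Finset.coe_singleton, Submodule.mem_span_singleton]
    exact ⟨op x, by rw [op_smul_eq_mul, one_mul]⟩
  infer_instance

theorem phi_mulVec (h : NonstandardInvolution φ) (A : Matrix (Fin n) (Fin n) ℍ[ℝ])
    (x : Fin n → ℍ[ℝ]) :
    (fun i => φ ((A *ᵥ x) i)) = (fun k => φ (x k)) ᵥ* (phiT φ A) := by
  ext1 i
  simp only [Matrix.mulVec, Matrix.vecMul, dotProduct, phiT, Matrix.of_apply, map_sum, h.mul]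

theorem phi_pair (h : NonstandardInvolution φ) (G : Matrix (Fin n) (Fin n) ℍ[ℝ])
    (x y : Fin n → ℍ[ℝ]) : φ (pair φ G x y) = pair φ (phiT φ G) y x := by
  have h1 : φ (pair φ G x y) = ((fun i => φ ((G *ᵥ y) i)) ⬝ᵥ x) := by
    simp only [pair, dotProduct, map_sum, h.mul, h.invol]
  rw [h1, phi_mulVec h, pair, Matrix.dotProduct_mulVec]

theorem pair_neg (G : Matrix (Fin n) (Fin n) ℍ[ℝ]) (x y : Fin n → ℍ[ℝ]) :
    pair φ (-G) x y = -pair φ G x y := by
  rw [pair, pair, Matrix.neg_mulVec, dotProduct_neg]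

theorem qherm (h : NonstandardInvolution φ) {β : ℍ[ℝ]} (hβ : φ β = -β) (hn : normSq β = 1)
    (G : Matrix (Fin n) (Fin n) ℍ[ℝ]) (hG : phiT φ G = -G) :
    QHerm (fun x y : Fin n → ℍ[ℝ] => β⁻¹ * pair φ G x y) where
  add_right x y z := by
    simp only [pair, Matrix.mulVec_add, dotProduct_add, mul_add]
  smul_right x y q := by
    simp only [pair, Matrix.mulVec_smul]
    simp only [dotProduct, Pi.smul_apply, op_smul_eq_mul, Finset.sum_mul, mul_assoc,
      Finset.mul_sum]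
  symm x y := by
    have hb : β ≠ 0 := by
      intro h0
      rw [h0] at hn
      simp at hn
    have hbi : β⁻¹ = -β := by
      apply inv_eq_of_mul_eq_one_right
      rw [mul_neg, beta_sq h hβ hn, neg_neg]
    have h1 := phi_pair h G x y
    rw [hG, pair_neg, phi_eq h hβ hn] at h1
    rw [star_mul, hbi, star_neg, beta_star h hβ, neg_neg]
    have h2 := neg_injective h1
    rw [← h2, neg_mul, ← mul_assoc, ← mul_assoc, beta_sq h hβ hn]
    simp

theorem skew (h : NonstandardInvolution φ) (β : ℍ[ℝ]) (H A : Matrix (Fin n) (Fin n) ℍ[ℝ])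
    (hA : H * A = -(phiT φ A * H)) (x y : Fin n → ℍ[ℝ]) :
    β⁻¹ * pair φ (H * A) (A *ᵥ x) y = -(β⁻¹ * pair φ (H * A) x (A *ᵥ y)) := by
  have h1 : phiT φ A * (H * A) = -(H * A * A) := by
    rw [← mul_assoc, hA, neg_mul, neg_neg]
  rw [pair, phi_mulVec h, ← Matrix.dotProduct_mulVec, Matrix.mulVec_mulVec, h1,
    Matrix.neg_mulVec, dotProduct_neg, mul_neg, pair, Matrix.mulVec_mulVec]

theorem main (h : NonstandardInvolution φ) {β : ℍ[ℝ]} (hβ : φ β = -β) (hnβ : normSq β = 1)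
    (G A : Matrix (Fin n) (Fin n) ℍ[ℝ]) (hG : phiT φ G = -G)
    (hA : ∀ x y, β⁻¹ * pair φ G (A *ᵥ x) y = -(β⁻¹ * pair φ G x (A *ᵥ y)))
    (N : Sub n) (hN : Invariant A N) (hneu : Neutral φ G N) :
    ∃ L : Sub n, N ≤ L ∧ Invariant A L ∧ Maximal (Nonneg φ β G) L := by
  have hn : ∀ M : Sub n, Nonneg φ β G M ↔
      QNonneg (fun x y : Fin n → ℍ[ℝ] => β⁻¹ * pair φ G x y) M := by
    intro M
    constructor
    · intro h x hx
      obtain ⟨r, hr, he⟩ := h x hx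
      simp only [he]
      rw [Quaternion.re_coe]
      exact hr
    · intro h' x hx
      exact ⟨_, h' x hx, (qherm h hβ hnβ G hG).real x⟩
  obtain ⟨L, h1, h2, h3, h4⟩ := extend_nonneg (qherm h hβ hnβ G hG) (lin A) hA N hN
    (fun x hx y hy => by simp only [hneu y hy x hx, mul_zero])
  exact ⟨L, h1, h2, (hn L).2 h3, fun M hM hM' => h4 M hM ((hn M).1 hM')⟩

theorem phiT_mul (h : NonstandardInvolution φ) (X Y : Matrix (Fin n) (Fin n) ℍ[ℝ]) :
    phiT φ (X * Y) = phiT φ Y * phiT φ X := by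
  ext1 i j
  simp only [phiT, Matrix.of_apply, Matrix.mul_apply, map_sum, h.mul]

/-- For every nonstandard involution `φ`, every `β` with `φ β = -β` and `|β| = 1`, every invertible
`φ`-hermitian `H`, every `(H, φ)`-skewsymmetric `A` and every `A`-invariant `(HA, φ)`-neutral
subspace `N` there are `A`-invariant subspaces containing `N` that are maximal
`(HA, φ)`-nonnegative and maximal `(HA, φ)`-nonpositive, respectively. -/
theorem result (φ : ℍ[ℝ] →ₗ[ℝ] ℍ[ℝ]) (hφ : NonstandardInvolution φ) (β : ℍ[ℝ])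
    (hβ : φ β = -β) (hβ1 : ‖β‖ = 1) (n : ℕ) (H A : Matrix (Fin n) (Fin n) ℍ[ℝ])
    (_hH : IsUnit H) (hH : phiT φ H = H) (hA : H * A = -(phiT φ A * H)) (N : Sub n)
    (hN : Invariant A N) (hneu : Neutral φ (H * A) N) :
    (∃ L : Sub n, N ≤ L ∧ Invariant A L ∧ Maximal (Nonneg φ β (H * A)) L) ∧
    (∃ L : Sub n, N ≤ L ∧ Invariant A L ∧ Maximal (Nonpos φ β (H * A)) L) := by
  have hnβ : normSq β = 1 := by
    rw [Quaternion.normSq_eq_norm_mul_self, hβ1, mul_one]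
  have hG : phiT φ (H * A) = -(H * A) := by
    rw [phiT_mul hφ, hH, hA, neg_neg]
  refine ⟨main hφ hβ hnβ (H * A) A hG (skew hφ β H A hA) N hN hneu, ?_⟩
  have hG' : phiT φ (-(H * A)) = -(-(H * A)) := by
    rw [← hG]
    ext1 i j
    simp only [phiT, Matrix.of_apply, Matrix.neg_apply]
    rw [← map_neg, ← Matrix.neg_apply, ← hG]
    simp [phiT]
  obtain ⟨L, h1, h2, h3, h4⟩ := main hφ hβ hnβ (-(H * A)) A hG' (by
      intro x y
      rw [pair_neg, pair_neg, mul_neg, mul_neg, skew hφ β H A hA])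
    N hN (by
      intro x hx y hy
      rw [pair_neg, hneu x hx y hy, neg_zero])
  have hn : ∀ M : Sub n, Nonneg φ β (-(H * A)) M ↔ Nonpos φ β (H * A) M := by
    intro M
    constructor
    · intro h x hx
      obtain ⟨r, hr, he⟩ := h x hx
      refine ⟨-r, by linarith, ?_⟩
      rw [pair_neg, mul_neg] at he
      rw [Quaternion.coe_neg, ← he, neg_neg]
    · intro h x hx
      obtain ⟨r, hr, he⟩ := h x hx
      refine ⟨-r, by linarith, ?_⟩
      rw [pair_neg, mul_neg, he, Quaternion.coe_neg]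
  exact ⟨L, h1, h2, (hn L).1 h3, fun M hM hM' => h4 M hM ((hn M).2 hM')⟩

end Pool.Agent.Results.MP_64d585_al.Extension
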